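import Pool.Agent.E8helper1.TP5.Pub
import Pool.Agent.E8helper1.TP.Conv
import Pool.Agent.E8helper1.TX.Fin7

/-!
# The theorem for Tate classes, all types: conversion of the definitions
-/

open CategoryTheory AlgebraicGeometry Filter Topology

open scoped ENNReal

universe u

namespace Pool.Agent.E8helper1.TP5

open Module
open Pool.Agent.H914 Pool.Agent.H914.VarClass Pool.Agent.H914.VarClass.Obj
  Pool.Agent.H914.WeilCohomology Pool.Agent.H281R3.HT
open Pool.Agent.Y129 (pw pj PowerAction TG tateClasses tateDim cycRank finrank_TG)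
open Pool.Agent.TH125.Gal (IsGaloisAct Intertwines TateAct)
open Pool.Agent.E8helper1.TX
open Pool.Agent.E8helper1.TP (Gal Hodge hdim algDim Quot algDim_eq)
open Pool.Agent.E8helper56.TY (S_ASM5 M5)

set_option linter.unusedSectionVars false

variable {k : Type u} [Field k] {𝒱 : VarClass k} {ops : CycleOps 𝒱}
  {W : WeilCohomology.{u, 0} ops} {X : 𝒱.Obj}

theorem sum_apply {K A : Type} [Field K] [Ring A] [Algebra K A] (f : Module.End K A)
    (P : Polynomial ℤ) (a : A) :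
    (Polynomial.aeval f P : Module.End K A) a = P.sum fun n c => (c : K) • f^[n] a := by
  rw [Polynomial.aeval_def, Polynomial.eval₂_eq_sum, Polynomial.sum, Polynomial.sum,
    LinearMap.sum_apply]
  refine Finset.sum_congr rfl fun n _ => ?_
  rw [Module.End.mul_apply, Module.End.pow_apply]
  have h1 : (algebraMap ℤ (Module.End K A)) (P.coeff n) = ((P.coeff n : ℤ) : Module.End K A) := rfl
  rw [h1, Module.End.intCast_apply, Int.cast_smul_eq_zsmul]

theorem hasFrob_of (G : Gal W X) {ℓ : ℕ} [Fact ℓ.Prime] (φ : W.K ≃+* ℚ_[ℓ])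
    (h : Frobenii G φ) : (∀ g, ‖φ (G.chi g : W.K)‖ = 1) ∧ HasFrob φ G.chi G.rho := by
  obtain ⟨h1, d, v, hv, hl, hd⟩ := h
  refine ⟨h1, d, v, hv, hl, fun g ε hε => ?_⟩
  obtain ⟨γ, p, hp, hγ, hfr, hd1, hd2⟩ := hd g ε hε
  refine ⟨γ, p, hp, hγ, ?_, ?_, ?_⟩
  · intro i
    obtain ⟨P, k1, k2, k3, k4⟩ := hfr i
    refine ⟨P, k1, k2.le, k3, fun a ha => ?_⟩
    rw [sum_apply]
    exact k4 a ha
  · rw [← map_sub]
    exact hd1
  · intro a b
    rw [Aq_apply, Aq_apply, ← map_sub, ← Finsupp.sub_apply, ← map_sub]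
    exact hd2 a b

/-- **The theorem for Tate classes**, all types. -/
theorem tate_law5 (hASM5 : S_ASM5) [Algebra W.K ℂ] {ℓ : ℕ} [Fact ℓ.Prime] (φ : W.K ≃+* ℚ_[ℓ])
    (hX : 0 < hdim W X) (G : Gal W X) (hG : Frobenii G φ) (hss : G.Semisimple)
    (H : Hodge W) (D : X.Cycles) (hD : H.Polarizes X D) (M : ℕ)
    (hM : M = exponent (hdim W X) X.dim ∨ G.NoTypeFour ∧ M = 2) (m : ℕ)
    (hm : M ≤ m) (hT : G.TateConj (2 * m - 1)) :
    ∃ N : ℕ, 1 ≤ N ∧ N ≤ bound (hdim W X) M ∧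
      Quot G.tateDim (algDim W X) (bound (hdim W X) M) N ∧ (N = 1 ↔ ∀ n, G.TateConj n) ∧
      ((hdim W X : ℝ) ^ 3 * (M : ℝ) ^ 2 * Real.log (2 * hdim W X * M + 1) ≤ m → N = 1) := by
  have hnt : Nontrivial (W.H X) := Module.nontrivial_of_finrank_pos hX
  have hb : finrank W.K (W.H X) = hdim W X := rfl
  have hb1 : 1 ≤ hdim W X := hX
  obtain ⟨hχ, hfrob⟩ := hasFrob_of G φ hG
  have hM2 : 2 ≤ M := by
    rcases hM with rfl | ⟨-, rfl⟩
    · have h1 : 1 ≤ (hdim W X).factorial * ((2 * X.dim + 1) * (hdim W X).factorial) ^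
          (hdim W X - 1) :=
        Nat.succ_le_of_lt (Nat.mul_pos (Nat.factorial_pos _)
          (Nat.pow_pos (Nat.mul_pos (by omega) (Nat.factorial_pos _))))
      rw [exponent]
      omega
    · exact le_rfl
  obtain ⟨m', rfl⟩ : ∃ m', m = m' + 1 := ⟨m - 1, by omega⟩
  have e : 2 * (m' + 1) - 1 = m' + m' + 1 := by omega
  rw [e] at hT
  have hle := (G.le_iff _).2 hT
  obtain ⟨hlat⟩ : Nonempty (TX.HasLatticeH φ G.rho) := by
    obtain ⟨d, v, k1, k2, -⟩ := hfrob
    exact ⟨⟨d, v, k1, k2⟩⟩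
  -- the two statements
  have key : (∀ n, HomEqNum W (pw X n)) ∧
      (∀ n, finrank W.K (TG W X G.chi G.rho (n + n + 1)) ≤
        bound (hdim W X) M * finrank W.K (algSpan W (pw X (n + n + 1)))) ∧
      ((hdim W X : ℝ) ^ 3 * (M : ℝ) ^ 2 * Real.log (2 * hdim W X * M + 1) ≤ (m' + 1 : ℕ) →
        ∀ n, TG W X G.chi G.rho n ≤ algSpan W (pw X n)) := by
    rcases hM with rfl | ⟨hIV, rfl⟩
    · obtain ⟨k1, k2, k3⟩ := main_TG5 (ρ := G.rho) Pool.Agent.E8helper89.TX.t_STARJ
        Pool.Agent.E8helper76.TX.t_SSG hASM5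
        Pool.Agent.E8helper26.TX.t_TRF Pool.Agent.E8helper3.TX.t_SQRT
        Pool.Agent.E8helper89.TX.t_HDG Pool.Agent.E8helper65.TX.t_HRS φ G.power hχ hfrob
        (G.semisimple hss) H.toDec D (H.polarizes hD)
      obtain ⟨m0, hm0⟩ : ∃ m0, exponent (hdim W X) X.dim = m0 + 1 :=
        ⟨exponent (hdim W X) X.dim - 1, by omega⟩
      refine ⟨k1 (TG_down G.power (by omega) hle), ?_, ?_⟩
      · exact k2 m0 hm0 (TG_down G.power (by omega) hle)
      · intro hm'
        exact k3 m' hm' hle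
    · obtain ⟨k1, k2, k3⟩ := main_TG (ρ := G.rho) Pool.Agent.E8helper89.TX.t_STARJ
        Pool.Agent.E8helper76.TX.t_SSG s_asm
        Pool.Agent.E8helper26.TX.t_TRF Pool.Agent.E8helper3.TX.t_SQRT
        Pool.Agent.E8helper89.TX.t_HDG Pool.Agent.E8helper65.TX.t_HRS φ G.power hχ hlat
        (G.semisimple hss) (G.noTypeIV hIV) H.toDec D (H.polarizes hD)
      refine ⟨k1 (TG_down G.power (by omega) hle), fun n => ?_, fun hm' => ?_⟩
      · refine (k2 (TG_down G.power (by omega) hle) n).trans (Nat.mul_le_mul_right _ ?_)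
        rw [bound, hb]
        exact Nat.pow_le_pow_left (by omega) _
      · refine k3 m' (by omega) ?_ hle
        rw [hb]
        refine le_trans ?_ hm'
        have hb2 : (1 : ℝ) ≤ hdim W X := by exact_mod_cast hb1
        have h1 : Real.log (3 * hdim W X) ≤ Real.log (2 * hdim W X * (2 : ℕ) + 1) := by
          apply Real.log_le_log (by positivity)
          push_cast
          nlinarith
        have h2 : 0 ≤ Real.log (3 * hdim W X) := Real.log_nonneg (by nlinarith)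
        have h3 : (0 : ℝ) ≤ (hdim W X : ℝ) ^ 3 := by positivity
        push_cast at h1 ⊢
        have h4 := mul_le_mul_of_nonneg_left h1 h3
        have h5 : 0 ≤ (hdim W X : ℝ) ^ 3 * Real.log (3 * hdim W X) := mul_nonneg h3 h2
        nlinarith
  obtain ⟨hN, k1, k2⟩ := key
  obtain ⟨hle', N, e1, e2, e3, e4⟩ := index_of G.power (bound (hdim W X) M) hN k1
  have hdim' : ∀ n, cycRank ops (pw X n) = algDim W X n := fun n =>
    (Pool.Agent.Y133.Half.homEqNum_iff' (pw X n)).1 (hN n)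
  have hiff : N = 1 ↔ ∀ n, G.TateConj n := by
    rw [e4]
    exact forall_congr' fun n => (G.conj_iff n).symm
  refine ⟨N, e1, e2, ⟨?_, fun n => ?_⟩, hiff, fun hm' => ?_⟩
  · simp only [hdim', ← G.dim_eq] at e3
    exact e3
  · have h3 := hle' n
    rw [hdim', ← G.dim_eq] at h3
    exact h3
  · rw [hiff]
    exact fun n => (G.le_iff n).1 (k2 hm' n)

end Pool.Agent.E8helper1.TP5
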