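import Pool.Agent.E8helper1.TP.Pub

/-!
# Frobenius elements: definitions
-/

open CategoryTheory AlgebraicGeometry

universe u

namespace Pool.Agent.E8helper1.TP5

section generic

variable {K A Γ : Type} [Field K] [Ring A] [Algebra K A] [Group Γ]

/-- The map `r` has the properties of the geometric Frobenius at a place with residue field `𝔽_p`:
for every `i` the restriction of `r` to the space `gr i` (the cohomology of degree `i`) is a zero of a
monic polynomial with integral coefficients, of degree `dim (gr i)`, all complex roots of which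
have absolute value `p ^ (i / 2)`. -/
def IsFrobenius (gr : ℕ → Submodule K A) (p : ℕ) (r : A → A) : Prop :=
  ∀ i, ∃ P : Polynomial ℤ, P.Monic ∧ P.natDegree = Module.finrank K (gr i) ∧
    (∀ z : ℂ, Polynomial.aeval z P = 0 → ‖z‖ ^ 2 = (p : ℝ) ^ i) ∧
    ∀ a ∈ gr i, P.sum (fun n c => (c : K) • r^[n] a) = 0

/-- The values of `χ` are `ℓ`-adic units; there is a homogeneous basis in which the group acts by
`ℓ`-adic integral matrices; and the Frobenius elements are dense: for every `g` in the group and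
every `ε > 0` there is a Frobenius element `γ` with `χ γ = p`, a prime number, such that `χ γ` and
`χ g`, and the matrices of `γ` and `g`, differ by less than `ε`. -/
def HasFrobenii {ℓ : ℕ} [Fact ℓ.Prime] (φ : K ≃+* ℚ_[ℓ]) (χ : Γ → K) (gr : ℕ → Submodule K A)
    (ρ : Γ → A → A) : Prop :=
  (∀ g, ‖φ (χ g)‖ = 1) ∧ ∃ (d : ℕ) (v : Module.Basis (Fin d) K A), (∀ i, ∃ j, v i ∈ gr j) ∧
    (∀ g i j, ‖φ (v.repr (ρ g (v j)) i)‖ ≤ 1) ∧
    ∀ g, ∀ ε > 0, ∃ (γ : Γ) (p : ℕ), p.Prime ∧ χ γ = p ∧ IsFrobenius gr p (ρ γ) ∧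
      ‖φ (χ γ - χ g)‖ < ε ∧ ∀ i j, ‖φ (v.repr (ρ γ (v j) - ρ g (v j)) i)‖ < ε

end generic

/-- The exponent `2 b! ((2 d + 1) b!) ^ (b - 1)`. -/
def exponent (b d : ℕ) : ℕ := 2 * (b.factorial * ((2 * d + 1) * b.factorial) ^ (b - 1))

/-- The bound `(2 b M) ^ (2 b ^ 2)`. -/
def bound (b M : ℕ) : ℕ := (2 * b * M) ^ (2 * b ^ 2)

open Pool.Agent.H914 Pool.Agent.H914.VarClass Pool.Agent.H914.VarClass.Obj
  Pool.Agent.H914.WeilCohomology
open Pool.Agent.Y129 (pw)

variable {k : Type u} [Field k] {𝒱 : VarClass k} {ops : CycleOps 𝒱}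
  {W : WeilCohomology.{u, 0} ops} {X : 𝒱.Obj}

/-- The representation on the cohomology of `X` is integral, and the Frobenius elements are dense. -/
def Frobenii (G : TP.Gal W X) {ℓ : ℕ} [Fact ℓ.Prime] (φ : W.K ≃+* ℚ_[ℓ]) : Prop :=
  HasFrobenii φ G.χ (W.gr X) (G.ρ 0)

end Pool.Agent.E8helper1.TP5
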